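import Pool.Agent.R973.Cut.Fin

/-!
# The product condition does not imply a cutoff in separation or in relative entropy (MP_c130e3_pr)

One family of irreducible reversible continuous-time chains on finite sets is a counterexample to
both questions: for the separation distance and for the relative entropy, and for every level
`ε ∈ (0, M)`, the product of the spectral gap and of the mixing time tends to infinity, but there is
no cutoff at the mixing time, and no cutoff with a window of the order of the inverse of the gap.
-/

set_option autoImplicit false

open Filter Topology Pool.Agent.R973.Cut

namespace Pool.Agent.Results.MP_c130e3_pr.NoEquivalence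

/-- **Result.** There is a family of irreducible, reversible, continuous-time Markov chains on
finite sets such that, with `M` the limit superior of the distances at time zero (`M = 1` for the
separation distance, `M = ∞` for the relative entropy), for each of the two distances and for every
`ε ∈ (0, M)`, condition (1), `gap · mixing time → ∞`, holds, while condition (2), cutoff at the
mixing time, and condition (3), a (mixing time, 1 / gap) cutoff, both fail. -/
theorem result : ∃ C : ℕ → Chain,
    (height (fun n => (C n).separation) = 1 ∧
      ∀ ε : ℝ, 0 < ε → (ε : EReal) < height (fun n => (C n).separation) →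
        ProductCondition (fun n => (C n).gap) (mixingTime (fun n => (C n).separation) ε) ∧
        ¬ Cutoff (fun n => (C n).separation) (mixingTime (fun n => (C n).separation) ε) ∧
        ¬ WindowCutoff (fun n => (C n).separation) (mixingTime (fun n => (C n).separation) ε)
          (fun n => ((C n).gap)⁻¹)) ∧
    (height (fun n => (C n).entropy) = ⊤ ∧
      ∀ ε : ℝ, 0 < ε → (ε : EReal) < height (fun n => (C n).entropy) →
        ProductCondition (fun n => (C n).gap) (mixingTime (fun n => (C n).entropy) ε) ∧
        ¬ Cutoff (fun n => (C n).entropy) (mixingTime (fun n => (C n).entropy) ε) ∧
        ¬ WindowCutoff (fun n => (C n).entropy) (mixingTime (fun n => (C n).entropy) ε)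
          (fun n => ((C n).gap)⁻¹)) :=
  ⟨Ch, ⟨height_sep, fun ε h0 h1 => sep_part ε h1 h0⟩,
    ⟨height_entropy, fun ε h0 _ => entropy_part ε h0⟩⟩

end Pool.Agent.Results.MP_c130e3_pr.NoEquivalence
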